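import Mathlib
import Pool.Agent.P8H70.TR.Stm

/-!
Package FAC of project TR (helper5): finite product sums over `(ℤ/q)^k`.
-/

set_option autoImplicit false

open Complex Finset ComplexConjugate

namespace Pool.Agent.P8H5.TR

open Pool.Agent.P8H70.TR

theorem prod_sum {q : ℕ} [NeZero q] {k : ℕ} (F : Fin k → ZMod q → ℂ) :
    ∑ ω : Fin k → ZMod q, ∏ i, F i (ω i) = ∏ i, ∑ x, F i x := by
  rw [Finset.prod_univ_sum, Fintype.piFinset_univ]

theorem sum_conj_ch {q : ℕ} [NeZero q] (hq : 2 ≤ q) : ∑ x : ZMod q, conj (ch q x) = 0 := by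
  rw [← map_sum]
  have h : ∑ x : ZMod q, ch q x = 0 := by
    unfold ch
    rw [AddChar.sum_eq_zero_iff_ne_zero]
    intro h0
    have h1 : (ZMod.stdAddChar (N := q) (1 : ZMod q)) = ZMod.stdAddChar (N := q) (0 : ZMod q) := by
      rw [h0]
      simp
    have h2 := ZMod.injective_stdAddChar h1
    have : Fact (1 < q) := ⟨hq⟩
    exact one_ne_zero h2
  rw [h, map_zero]

theorem conj_Psi {q : ℕ} [NeZero q] {k : ℕ} (d : ℕ) (ω : Fin k → ZMod q) :
    conj (Psi q d ω) = ∑ S ∈ powersetCard d (univ : Finset (Fin k)), ∏ i,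
      (if i ∈ S then conj (ch q (ω i)) else 1) := by
  unfold Psi
  rw [map_sum]
  refine sum_congr rfl fun S _ => ?_
  rw [map_prod, prod_ite_mem, univ_inter]

theorem term_zero {q : ℕ} [NeZero q] (hq : 2 ≤ q) {k : ℕ} (S : Finset (Fin k)) (hS : 2 ≤ S.card)
    (i : Fin k) (g : ZMod q → ℂ) :
    ∑ ω : Fin k → ZMod q, g (ω i) * ∏ l, (if l ∈ S then conj (ch q (ω l)) else 1) = 0 := by
  have e1 : ∀ ω : Fin k → ZMod q, g (ω i) * ∏ l, (if l ∈ S then conj (ch q (ω l)) else 1) =
      ∏ l, ((if l = i then g (ω l) else 1) * (if l ∈ S then conj (ch q (ω l)) else 1)) := by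
    intro ω
    rw [prod_mul_distrib, prod_ite_eq' univ i, if_pos (mem_univ i)]
  simp only [e1]
  rw [prod_sum (fun l x => (if l = i then g x else 1) * (if l ∈ S then conj (ch q x) else 1))]
  obtain ⟨l, hl, hli⟩ := exists_mem_ne (show 1 < S.card by omega) i
  refine prod_eq_zero (mem_univ l) ?_
  simp only [if_neg hli, if_pos hl, one_mul]
  exact sum_conj_ch hq

theorem fac : S_FAC := by
  intro q _ k d hq hd hdk
  have hcard : ∀ S ∈ powersetCard d (univ : Finset (Fin k)), S.card = d := fun S hS =>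
    (mem_powersetCard.1 hS).2
  refine ⟨?_, ?_, fun u => ?_⟩
  · simp only [conj_Psi]
    rw [sum_comm]
    refine sum_eq_zero fun S hS => ?_
    have h := term_zero hq S (by rw [hcard S hS]; exact hd) (⟨0, by omega⟩ : Fin k) (fun _ => 1)
    simpa only [one_mul] using h
  · simp only [conj_Psi, YY, Complex.ofReal_sum, sum_mul, mul_sum]
    rw [sum_comm]
    refine sum_eq_zero fun S hS => ?_
    rw [sum_comm]
    refine sum_eq_zero fun i _ => ?_
    exact term_zero hq S (by rw [hcard S hS]; exact hd) i (fun x => (cs q x : ℂ))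
  · set A : ℂ := ∑ x : ZMod q, cexp (((u * cs q x : ℝ) : ℂ) * I) * conj (ch q x) with hA
    set B : ℂ := ∑ x : ZMod q, cexp (((u * cs q x : ℝ) : ℂ) * I) with hB
    have hexp : ∀ ω : Fin k → ZMod q, cexp (((u * YY q ω : ℝ) : ℂ) * I) =
        ∏ i, cexp (((u * cs q (ω i) : ℝ) : ℂ) * I) := by
      intro ω
      rw [← Complex.exp_sum]
      congr 1
      unfold YY
      push_cast
      rw [mul_sum, sum_mul]
    simp only [conj_Psi, mul_sum]
    rw [sum_comm]
    have hS : ∀ S ∈ powersetCard d (univ : Finset (Fin k)),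
        ∑ ω : Fin k → ZMod q, cexp (((u * YY q ω : ℝ) : ℂ) * I) *
          ∏ i, (if i ∈ S then conj (ch q (ω i)) else 1) = A ^ d * B ^ (k - d) := by
      intro S hS
      have e1 : ∀ ω : Fin k → ZMod q, cexp (((u * YY q ω : ℝ) : ℂ) * I) *
          ∏ i, (if i ∈ S then conj (ch q (ω i)) else 1) =
          ∏ i, (cexp (((u * cs q (ω i) : ℝ) : ℂ) * I) *
            (if i ∈ S then conj (ch q (ω i)) else 1)) := by
        intro ω
        rw [hexp, ← prod_mul_distrib]
      simp only [e1]
      rw [prod_sum (fun i x => cexp (((u * cs q x : ℝ) : ℂ) * I) *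
        (if i ∈ S then conj (ch q x) else 1))]
      have e2 : ∀ i : Fin k, ∑ x : ZMod q, cexp (((u * cs q x : ℝ) : ℂ) * I) *
          (if i ∈ S then conj (ch q x) else 1) = if i ∈ S then A else B := by
        intro i
        split_ifs
        · rfl
        · simp only [mul_one]
          rfl
      rw [prod_congr rfl fun i _ => e2 i, prod_ite, prod_const, prod_const]
      have c1 : (univ.filter fun i => i ∈ S).card = d := by
        rw [filter_mem_eq_inter, univ_inter, hcard S hS]
      have c2 : (univ.filter fun i => ¬ i ∈ S).card = k - d := by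
        rw [filter_not, card_sdiff_of_subset (filter_subset _ _), c1, card_univ, Fintype.card_fin]
      rw [c1, c2]
    rw [sum_congr rfl hS, sum_const, card_powersetCard, card_univ, Fintype.card_fin, nsmul_eq_mul]
    ring

end Pool.Agent.P8H5.TR
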