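import Mathlib
import Pool.Agent.P8H70.TR.Stm

/-!
Package TAY of project TR (helper5): Taylor's formula with integral remainder.
-/

set_option autoImplicit false

open Complex MeasureTheory Finset

namespace Pool.Agent.P8H5.TR

open Pool.Agent.P8H70.TR

/-- `e^{i u s}` -/
noncomputable def ee (u s : ℝ) : ℂ := cexp (((u * s : ℝ) : ℂ) * I)

theorem norm_ee (u s : ℝ) : ‖ee u s‖ = 1 := Complex.norm_exp_ofReal_mul_I _

theorem hasDerivAt_ee (u s : ℝ) : HasDerivAt (ee u) (ee u s * (u * I)) s := by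
  unfold ee
  have h1 : HasDerivAt (fun s : ℝ => (((u * s : ℝ) : ℂ) * I)) (u * I) s := by
    have h2 : HasDerivAt (fun s : ℝ => u * s) u s := by
      simpa using (hasDerivAt_id s).const_mul u
    exact (h2.ofReal_comp).mul_const I
  exact h1.cexp

theorem continuous_ee (u : ℝ) : Continuous (ee u) :=
  continuous_iff_continuousAt.2 fun s => (hasDerivAt_ee u s).continuousAt

theorem taylor (u y K : ℝ) (hy : |y| ≤ K) :
    ee u y = ee u (-K) + (ee u (-K) * (u * I)) * ((y + K : ℝ) : ℂ) +
      ∫ s in (-K)..K, (-((u : ℂ) ^ 2) * ee u s) * ((max (y - s) 0 : ℝ) : ℂ) := by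
  obtain ⟨h1, h2⟩ := abs_le.1 hy
  have hc : Continuous fun s : ℝ => (-((u : ℂ) ^ 2) * ee u s) * ((max (y - s) 0 : ℝ) : ℂ) := by
    refine (continuous_const.mul (continuous_ee u)).mul (Complex.continuous_ofReal.comp ?_)
    exact (continuous_const.sub continuous_id).max continuous_const
  rw [← intervalIntegral.integral_add_adjacent_intervals (hc.intervalIntegrable (-K) y)
    (hc.intervalIntegrable y K)]
  have e2 : ∫ s in y..K, (-((u : ℂ) ^ 2) * ee u s) * ((max (y - s) 0 : ℝ) : ℂ) = 0 := by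
    rw [intervalIntegral.integral_congr (g := fun _ => (0 : ℂ)), intervalIntegral.integral_zero]
    intro s hs
    rw [Set.uIcc_of_le h2] at hs
    have : max (y - s) 0 = 0 := max_eq_right (by linarith [hs.1])
    simp only [this, Complex.ofReal_zero, mul_zero]
  have e1 : ∫ s in (-K)..y, (-((u : ℂ) ^ 2) * ee u s) * ((max (y - s) 0 : ℝ) : ℂ) =
      ∫ s in (-K)..y, (-((u : ℂ) ^ 2) * ee u s) * ((y - s : ℝ) : ℂ) := by
    refine intervalIntegral.integral_congr fun s hs => ?_
    rw [Set.uIcc_of_le h1] at hs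
    have : max (y - s) 0 = y - s := max_eq_left (by linarith [hs.2])
    simp only [this]
  have hF : ∀ s ∈ Set.uIcc (-K) y, HasDerivAt
      (fun s : ℝ => (ee u s * (u * I)) * ((y - s : ℝ) : ℂ) + ee u s)
      ((-((u : ℂ) ^ 2) * ee u s) * ((y - s : ℝ) : ℂ)) s := by
    intro s _
    have d1 : HasDerivAt (fun s : ℝ => ((y - s : ℝ) : ℂ)) ((-1 : ℝ) : ℂ) s := by
      have : HasDerivAt (fun s : ℝ => y - s) (-1) s := by
        simpa using (hasDerivAt_id s).const_sub y
      exact this.ofReal_comp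
    have d2 := (((hasDerivAt_ee u s).mul_const ((u : ℂ) * I)).mul d1).add (hasDerivAt_ee u s)
    refine d2.congr_deriv ?_
    push_cast
    linear_combination (ee u s * (u : ℂ) ^ 2 * ((y : ℂ) - s)) * Complex.I_sq
  have hc2 : Continuous fun s : ℝ => (-((u : ℂ) ^ 2) * ee u s) * ((y - s : ℝ) : ℂ) :=
    (continuous_const.mul (continuous_ee u)).mul
      (Complex.continuous_ofReal.comp (continuous_const.sub continuous_id))
  rw [e1, e2, intervalIntegral.integral_eq_sub_of_hasDerivAt hF (hc2.intervalIntegrable _ _)]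
  push_cast
  ring

theorem tay : S_TAY := by
  intro Ω _ Y w K u B hK hY h0 h1 hB
  have hint : ∀ ω ∈ (univ : Finset Ω), IntervalIntegrable (fun s : ℝ =>
      (-((u : ℂ) ^ 2) * ee u s) * ((max (Y ω - s) 0 : ℝ) : ℂ) * w ω) volume (-K) K := by
    intro ω _
    have hc : Continuous fun s : ℝ =>
        (-((u : ℂ) ^ 2) * ee u s) * ((max (Y ω - s) 0 : ℝ) : ℂ) * w ω := by
      refine ((continuous_const.mul (continuous_ee u)).mul
        (Complex.continuous_ofReal.comp ?_)).mul continuous_const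
      exact (continuous_const.sub continuous_id).max continuous_const
    exact hc.intervalIntegrable _ _
  have key : ∑ ω, cexp (((u * Y ω : ℝ) : ℂ) * I) * w ω =
      ∫ s in (-K)..K, (-((u : ℂ) ^ 2) * ee u s) *
        ∑ ω, ((max (Y ω - s) 0 : ℝ) : ℂ) * w ω := by
    have e1 : ∑ ω, cexp (((u * Y ω : ℝ) : ℂ) * I) * w ω =
        ∑ ω, (ee u (-K) * w ω + (ee u (-K) * (u * I)) * ((Y ω : ℂ) * w ω) +
          (ee u (-K) * (u * I)) * ((K : ℂ) * w ω) + ∫ s in (-K)..K,
            (-((u : ℂ) ^ 2) * ee u s) * ((max (Y ω - s) 0 : ℝ) : ℂ) * w ω) := by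
      refine sum_congr rfl fun ω _ => ?_
      rw [intervalIntegral.integral_mul_const]
      have h2 := taylor u (Y ω) K (hY ω)
      have h3 : cexp (((u * Y ω : ℝ) : ℂ) * I) = ee u (Y ω) := rfl
      rw [h3, h2]
      push_cast
      ring
    rw [e1, sum_add_distrib, sum_add_distrib, sum_add_distrib, ← mul_sum, ← mul_sum, ← mul_sum,
      ← mul_sum, h0, h1, mul_zero, mul_zero, mul_zero, mul_zero, zero_add, zero_add, zero_add,
      ← intervalIntegral.integral_finsetSum hint]
    refine intervalIntegral.integral_congr fun s _ => ?_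
    show ∑ ω, _ = _
    rw [mul_sum]
    exact sum_congr rfl fun ω _ => by ring
  rw [key]
  refine (intervalIntegral.norm_integral_le_of_norm_le_const (C := u ^ 2 * B) fun s hs => ?_).trans
    (le_of_eq ?_)
  · rw [Set.uIoc_of_le (by linarith)] at hs
    rw [norm_mul, norm_mul, norm_ee, mul_one, norm_neg, norm_pow, Complex.norm_real,
      Real.norm_eq_abs, sq_abs]
    exact mul_le_mul_of_nonneg_left (hB s (abs_le.2 ⟨hs.1.le, hs.2⟩)) (sq_nonneg u)
  · rw [abs_of_pos (by linarith)]
    ring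

end Pool.Agent.P8H5.TR
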